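import Mathlib

set_option autoImplicit false

namespace Pool.Agent.Results.MP_82653f_gt.NoClass

open Set Filter Topology

universe u

/-- `C`-closed subsets, for a class `C` of spaces. -/
def CClosed (C : ∀ Z : Type u, TopologicalSpace Z → Prop) {X : Type u} [TopologicalSpace X]
    (H : Set X) : Prop :=
  ∀ (Z : Type u) (t : TopologicalSpace Z), C Z t → ∀ f : Z → X, Continuous f → IsClosed (f ⁻¹' H)

/-- `C`-Hausdorff spaces. -/
def CHaus (C : ∀ Z : Type u, TopologicalSpace Z → Prop) (X : Type u) [TopologicalSpace X] : Prop :=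
  CClosed C (diagonal X)

/-- UOK spaces. -/
def UOK (X : Type u) [TopologicalSpace X] : Prop :=
  ∀ (L : Type u) [TopologicalSpace L] [T2Space L] [LocallyCompactSpace L] [NoncompactSpace L]
    (f : L → X), Continuous f → ∀ g h : OnePoint L → X, Continuous g → Continuous h →
      (∀ x : L, g x = f x) → (∀ x : L, h x = f x) → g = h

def Dbl {Y : Type u} (E : Set Y) := {z : Y × Bool // z.1 ∈ E → z.2 = false}

open Classical in
noncomputable def io {Y : Type u} (E : Set Y) (b : Bool) (y : Y) : Dbl E :=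
  ⟨(y, if y ∈ E then false else b), fun h => if_pos h⟩

instance {Y : Type u} [TopologicalSpace Y] (E : Set Y) : TopologicalSpace (Dbl E) where
  IsOpen U := ∀ b, IsOpen (io E b ⁻¹' U)
  isOpen_univ := fun _ => isOpen_univ
  isOpen_inter := fun _ _ hs ht b => (hs b).inter (ht b)
  isOpen_sUnion := fun S hS b => by
    rw [preimage_sUnion]; exact isOpen_biUnion fun U hU => hS U hU b

section
variable {Y : Type u} [TopologicalSpace Y] {E : Set Y}

lemma io_cont (b : Bool) : Continuous (io E b) := ⟨fun _ hU => hU b⟩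

lemma pi_cont : Continuous fun z : Dbl E => z.1.1 := ⟨fun _ hU _ => hU⟩

lemma side (hE : IsOpen E) (b : Bool) : IsOpen {z : Dbl E | z.1.1 ∈ E ∨ z.1.2 = b} := by
  intro c
  by_cases h : c = b
  · convert isOpen_univ
    ext y
    by_cases hy : y ∈ E <;> simp [io, hy, h]
  · convert hE
    ext y
    by_cases hy : y ∈ E <;> simp [io, hy, h]

omit [TopologicalSpace Y] in
lemma eq_of {z w : Dbl E} (h : z.1.1 = w.1.1) (h' : z.1.1 ∈ E ∨ z.1.2 = w.1.2) : z = w := by
  refine Subtype.ext (Prod.ext h ?_)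
  rcases h' with h' | h'
  · rw [z.2 h', w.2 (h ▸ h')]
  · exact h'

omit [TopologicalSpace Y] in
lemma io_eq {y : Y} : io E true y = io E false y ↔ y ∈ E := by
  refine ⟨fun h => by_contra fun hy => ?_, fun hy => eq_of rfl (Or.inl hy)⟩
  have := congrArg (fun z : Dbl E => z.1.2) h
  simp [io, hy] at this

lemma uok [T2Space Y] (hE : IsOpen E) (H : ∀ (M : Set Y) (q : Y), IsCompact M → q ∉ E →
    M ⊆ insert q E → q ∉ closure (M ∩ E)) : UOK (Dbl E) := by
  intro L _ _ _ _ f _ g h hg hh e1 e2
  have e : (fun x => (g x).1.1) = fun x => (h x).1.1 :=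
    OnePoint.denseRange_coe.equalizer (pi_cont.comp hg) (pi_cont.comp hh)
      (funext fun x => by simp [e1, e2])
  funext x
  induction x using OnePoint.rec with
  | coe x => rw [e1, e2]
  | infty =>
    by_contra hne
    have h1 : ¬ ((g OnePoint.infty).1.1 ∈ E ∨ _) := fun h' => hne (eq_of (congrFun e _) h')
    rw [not_or] at h1
    obtain ⟨N, hN, hNs, hc⟩ := local_compact_nhds (x := OnePoint.infty) (inter_mem
      (((side hE (g OnePoint.infty).1.2).preimage hg).mem_nhds (Or.inr rfl))
      (((side hE (h OnePoint.infty).1.2).preimage hh).mem_nhds (Or.inr rfl)))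
    have key : ∀ x : L, (x : OnePoint L) ∈ N → (g x).1.1 ∈ E := fun x hx => by
      by_contra hx'
      obtain ⟨a, b⟩ := hNs hx
      simp only [mem_preimage, mem_ofPred_eq, e1, e2] at a b hx'
      exact h1.2 ((a.resolve_left hx').symm.trans (b.resolve_left hx'))
    refine H _ _ (hc.image (pi_cont.comp hg)) h1.1 ?_ ?_
    · rintro _ ⟨x, hx, rfl⟩
      induction x using OnePoint.rec with
      | coe x => exact Or.inr (key x hx)
      | infty => exact Or.inl rfl
    · have := OnePoint.denseRange_coe.open_subset_closure_inter isOpen_interior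
        (mem_interior_iff_mem_nhds.2 hN)
      refine map_mem_closure (f := fun x => (g x).1.1) (pi_cont.comp hg) this ?_
      rintro _ ⟨hx, x, rfl⟩
      exact ⟨⟨_, interior_subset hx, rfl⟩, key x (interior_subset hx)⟩

lemma pull {C : ∀ Z : Type u, TopologicalSpace Z → Prop} (h : CHaus C (Dbl E)) {Z : Type u}
    {t : TopologicalSpace Z} (hZ : C Z t) {k : Z → Y} (hk : Continuous k) : IsClosed (k ⁻¹' E) := by
  convert h Z t hZ _ (((io_cont true).comp hk).prodMk ((io_cont false).comp hk)) using 1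
  ext z
  exact (io_eq (E := E) (y := k z)).symm

end

lemma noseq {α : Type u} {y : ℕ → Ultrafilter α} {q : Ultrafilter α} (hy : Tendsto y atTop (𝓝 q))
    (hne : ∀ n, y n ≠ q) : False := by
  classical
  have ev : ∀ A ∈ q, ∀ᶠ n in atTop, A ∈ y n := fun A hA =>
    hy.eventually ((ultrafilter_isOpen_basic A).mem_nhds hA)
  have : ∀ n, ∃ B ∈ y n, B ∉ q := fun n => by
    by_contra hh
    push Not at hh
    exact hne n (Ultrafilter.coe_le_coe.1 (show (q : Filter α) ≤ y n from hh)).symm
  choose B h1 h2 using this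
  obtain ⟨φ, -, hφ⟩ := exists_seq_of_forall_finset_exists (fun _ : ℕ => True)
    (fun m n => m < n ∧ (B m)ᶜ ∈ y n) fun s _ => by
      have : ∀ᶠ n in atTop, ∀ m ∈ s, m < n ∧ (B m)ᶜ ∈ y n := (Finset.eventually_all s).2 fun m _ =>
        (eventually_gt_atTop m).and (ev _ (Ultrafilter.compl_mem_iff_notMem.2 (h2 m)))
      exact this.exists.imp fun n hn => ⟨trivial, hn⟩
  have hm : StrictMono φ := fun m n h => (hφ m n h).1
  let A : ℕ → Set α := fun k => B (φ k) ∩ ⋂ j ∈ Iio k, (B (φ j))ᶜ
  have hA : ∀ k, A k ∈ y (φ k) := fun k =>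
    inter_mem (h1 _) ((biInter_mem (finite_Iio k)).2 fun j hj => (hφ j k hj).2)
  have hd : ∀ j k a, a ∈ A j → a ∈ A k → j = k := fun j k a hj hk => by
    rcases lt_trichotomy j k with h | h | h
    · exact absurd hj.1 (mem_iInter₂.1 hk.2 j h)
    · exact h
    · exact absurd hk.1 (mem_iInter₂.1 hj.2 k h)
  rcases q.mem_or_compl_mem (⋃ k, A (2 * k)) with h | h
  · obtain ⟨N, hN⟩ := eventually_atTop.1 (hm.tendsto_atTop.eventually (ev _ h))
    obtain ⟨a, a1, a2⟩ := Ultrafilter.nonempty_of_mem (inter_mem (hN (2 * N + 1) (by omega)) (hA _))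
    obtain ⟨k, hk⟩ := mem_iUnion.1 a1
    have := hd _ _ a hk a2
    omega
  · obtain ⟨N, hN⟩ := eventually_atTop.1 (hm.tendsto_atTop.eventually (ev _ h))
    obtain ⟨a, a1, a2⟩ := Ultrafilter.nonempty_of_mem (inter_mem (hN (2 * N) (by omega)) (hA _))
    exact a1 (mem_iUnion.2 ⟨N, a2⟩)

abbrev K := Ultrafilter (ULift.{u} ℕ)

lemma uok1 (g : K.{u} → ℝ) (hg : Continuous g) : UOK (Dbl {y | g y ≠ 0}) := by
  refine uok (isOpen_ne_fun hg continuous_const) fun M q hM hq hs hc => ?_
  have h0 : g q = 0 := not_not.1 hq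
  choose y hy using fun n : ℕ => mem_closure_iff.1 hc _
    (isOpen_lt hg.abs (continuous_const (y := 1 / ((n : ℝ) + 1)))) (by
      simp only [mem_ofPred_eq, h0, abs_zero]; positivity)
  have t : Tendsto (fun n => g (y n)) atTop (𝓝 0) :=
    squeeze_zero_norm (fun n => (hy n).1.le) tendsto_one_div_add_atTop_nhds_zero_nat
  refine noseq (hM.tendsto_nhds_of_unique_mapClusterPt (Eventually.of_forall fun n => (hy n).2.1)
    fun x hx hx' => ?_) fun n e => (hy n).2.2 (e ▸ h0)
  exact (hs hx).resolve_right fun h =>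
    h (eq_of_nhds_neBot ((hx'.continuousAt_comp hg.continuousAt).clusterPt.mono t))

structure P where
  v : K.{u}

instance : TopologicalSpace P.{u} :=
  TopologicalSpace.generateFrom ({S | ∃ U, IsOpen U ∧ S = P.v ⁻¹' U} ∪
    {S | ∃ g : K.{u} → ℝ, Continuous g ∧ S = {y | g y.v = 0}})

lemma v_cont : Continuous P.v.{u} := ⟨fun U hU =>
  TopologicalSpace.isOpen_generateFrom_of_mem (Or.inl ⟨U, hU, rfl⟩)⟩

instance : T2Space P.{u} := T2Space.of_injective_continuous (fun _ _ h => congrArg P.mk h) v_cont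

lemma cnt_closed {S : Set P.{u}} (hS : S.Countable) : IsClosed S := by
  rw [← isOpen_compl_iff, isOpen_iff_forall_mem_open]
  intro x hx
  rcases S.eq_empty_or_nonempty with rfl | hn
  · exact ⟨_, Subset.rfl, by simp, hx⟩
  obtain ⟨s, rfl⟩ := hS.exists_eq_range hn
  choose f z1 z2 z3 using fun n => exists_continuous_zero_one_of_isClosed
    (isClosed_singleton (x := x.v)) (isClosed_singleton (x := (s n).v))
    (disjoint_singleton.2 fun e => hx ⟨n, (congrArg P.mk e).symm⟩)
  letI := TopologicalSpace.metrizableSpaceMetric (ℕ → ℝ)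
  refine ⟨{y | dist (fun n => f n y.v) 0 = 0}, ?_, TopologicalSpace.isOpen_generateFrom_of_mem
    (Or.inr ⟨fun y => dist (fun n => f n y) 0,
      (continuous_pi fun n => (f n).continuous).dist continuous_const, rfl⟩), ?_⟩
  · rintro _ hy ⟨n, rfl⟩
    have := (congrFun (dist_eq_zero.1 hy) n).symm.trans (z2 n rfl)
    simp at this
  · exact dist_eq_zero.2 (funext fun n => z1 n rfl)

lemma uok2 (p : K.{u}) : UOK (Dbl {y : P.{u} | y.v ≠ p}) := by
  refine uok (isOpen_ne_fun v_cont continuous_const) fun M q hM hq _ hc => ?_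
  have : M.Finite := by
    by_contra hi
    obtain ⟨T, h1, h3, h2⟩ := Set.Infinite.exists_subset_countable_infinite hi
    refine h2 ((hM.of_isClosed_subset (cnt_closed h3) h1).finite
      (isDiscrete_iff_forall_mem_exists_isOpen.2 fun y hy => ⟨(T \ {y})ᶜ,
        (cnt_closed (h3.mono sdiff_subset)).isOpen_compl, ?_⟩))
    ext z
    by_cases e : z = y <;> simp [e, hy]
  rw [(this.inter_of_left _).isClosed.closure_eq] at hc
  exact hq hc.2

theorem result (C : ∀ Z : Type u, TopologicalSpace Z → Prop) :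
    ∃ (X : Type u) (_ : TopologicalSpace X), ¬ (CHaus C X ↔ UOK X) := by
  by_contra hh
  push Not at hh
  let p : K.{u} := hyperfilter _
  have op : ∀ (Z : Type u) (t : TopologicalSpace Z), C Z t → ∀ k : Z → K.{u}, Continuous k →
      IsOpen {z | k z = p} := by
    intro Z t hZ k hk
    have : Continuous fun z => P.mk (k z) := continuous_generateFrom_iff.2 (by
      rintro _ (⟨U, hU, rfl⟩ | ⟨g, hg, rfl⟩)
      · exact hU.preimage hk
      · convert (pull ((hh _ _).2 (uok1 g hg)) hZ hk).isOpen_compl using 1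
        ext z; simp)
    convert (pull ((hh _ _).2 (uok2 p)) hZ this).isOpen_compl using 1
    ext z; simp
  have hE : IsOpen {y : K.{u} | y ≠ p} := isOpen_ne
  have H : CHaus C (Dbl {y : K.{u} | y ≠ p}) := by
    intro Z t hZ f hf
    rw [← isOpen_compl_iff, isOpen_iff_mem_nhds]
    intro z hz
    have c1 := pi_cont.comp (continuous_fst.comp hf)
    have c2 := pi_cont.comp (continuous_snd.comp hf)
    by_cases e : (f z).1.1.1 = (f z).2.1.1
    · have h1 : ¬ ((f z).1.1.1 ≠ p ∨ _) := fun h' => hz (eq_of e h')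
      rw [not_or, not_not] at h1
      filter_upwards [(op Z t hZ _ c1).mem_nhds h1.1,
        ((side hE (f z).1.1.2).preimage (continuous_fst.comp hf)).mem_nhds (Or.inr rfl),
        ((side hE (f z).2.1.2).preimage (continuous_snd.comp hf)).mem_nhds (Or.inr rfl)] with w a b c d
      have d' : (f w).1 = (f w).2 := d
      simp only [mem_preimage, Function.comp, mem_ofPred_eq, ← d'] at a b c
      exact h1.2 ((b.resolve_left (not_not.2 a)).symm.trans (c.resolve_left (not_not.2 a)))
    · filter_upwards [(isOpen_ne_fun c1 c2).mem_nhds e] with w a d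
      exact a (congrArg (fun z : Dbl _ => z.1.1) d)
  haveI := hE.locallyCompactSpace
  have np : p ∈ closure {y : K.{u} | y ≠ p} := closure_mono (by
    rintro _ ⟨n, rfl⟩ e
    exact (finite_singleton n).notMem_hyperfilter (show {n} ∈ p from e ▸ (by simp)))
    (denseRange_pure p)
  haveI : NoncompactSpace {y : K.{u} | y ≠ p} := ⟨fun h => by
    have := (isCompact_iff_compactSpace.2 ⟨h⟩).isClosed
    rw [this.closure_eq] at np
    exact np rfl⟩
  let k : OnePoint {y : K.{u} | y ≠ p} → K.{u} := fun x => x.elim p Subtype.val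
  have hk : Continuous k := by
    rw [OnePoint.continuous_iff]
    refine ⟨fun U hU => ?_, continuous_subtype_val⟩
    obtain ⟨V, a, b, c⟩ := mem_nhds_iff.1 hU
    rw [coclosedCompact_eq_cocompact, mem_map, mem_cocompact]
    refine ⟨Subtype.val ⁻¹' Vᶜ, ?_, fun y hy => a (not_not.1 hy)⟩
    rw [Subtype.isCompact_iff, image_preimage_eq_of_subset (by
      rintro y hy; exact ⟨⟨y, fun e => hy (e ▸ c)⟩, rfl⟩)]
    exact b.isClosed_compl.isCompact
  have := (hh _ _).1 H _ _ ((io_cont false).comp continuous_subtype_val) _ _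
    ((io_cont true).comp hk) ((io_cont false).comp hk) (fun x => io_eq.2 x.2) fun _ => rfl
  exact io_eq.1 (congrFun this OnePoint.infty) rfl

end Pool.Agent.Results.MP_82653f_gt.NoClass
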